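import Pool.Agent.H35.SW.FinDefs

/-! Module EXCL: the sentences exclude each other. -/

set_option linter.unusedVariables false
set_option synthInstance.maxSize 100000

namespace SW

/-- `l` is reached from `b` in `n` steps -/
def H41St {M : Type} [SetStr M] (K : M) : ℕ → M → M → Prop
  | 0, b, l => l = b
  | n + 1, b, l => ∃ l', H41St K n b l' ∧ IsH K l' l

theorem h41_chain {M : Type} [SetStr M] {K : M} : ∀ (n : ℕ) (l : M),
    Chain n K l ↔ ∃ b, Bas K b ∧ H41St K n b l
  | 0, l => by
      constructor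
      · intro h; exact ⟨l, h, rfl⟩
      · rintro ⟨b, hb, rfl⟩; exact hb
  | n + 1, l => by
      constructor
      · rintro ⟨l', h1, h2⟩
        obtain ⟨b, hb, h3⟩ := (h41_chain n l').1 h1
        exact ⟨b, hb, l', h3, h2⟩
      · rintro ⟨b, hb, l', h3, h2⟩
        exact ⟨l', (h41_chain n l').2 ⟨b, hb, h3⟩, h2⟩

theorem h41_st_add {M : Type} [SetStr M] {K b : M} (m : ℕ) : ∀ (n : ℕ) (l : M),
    H41St K (m + n) b l → ∃ l', H41St K m b l' ∧ H41St K n l' l
  | 0, l, h => ⟨l, h, rfl⟩
  | n + 1, l, ⟨l1, h1, h2⟩ => by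
      obtain ⟨l', h3, h4⟩ := h41_st_add m n l1 h1
      exact ⟨l', h3, l1, h4, h2⟩

theorem excl (hU : HUPStmt) : EXCLStmt := by
  intro M _ _ i j
  -- growth
  have grow : ∀ (K b : M), IsHF K → Ord b → ¬ Ctb K b → ∀ (n : ℕ) (l : M), H41St K n b l →
      Ord l ∧ ¬ Ctb K l ∧ (b = l ∨ E b l) ∧ (0 < n → E b l) := by
    intro K b hK hb hc n
    induction n with
    | zero =>
      rintro l rfl
      exact ⟨hb, hc, Or.inl rfl, fun h => absurd h (lt_irrefl _)⟩
    | succ n ih =>
      rintro l ⟨l', h1, h2⟩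
      obtain ⟨o, c, e, -⟩ := ih l' h1
      obtain ⟨e', c'⟩ := (hU M K hK).2.2.1 l' l o c h2
      have h3 : E b l := by
        rcases e with rfl | e
        · exact e'
        · exact h2.1.trans e' e
      exact ⟨h2.1, c', Or.inr h3, fun _ => h3⟩
  have closed : ∀ (K b c : M), IsHF K → Bas K c → E b c → ∀ (n : ℕ) (l : M), H41St K n b l →
      E l c := by
    intro K b c hK hc hbc n
    induction n with
    | zero => rintro l rfl; exact hbc
    | succ n ih =>
      rintro l ⟨l', h1, h2⟩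
      obtain ⟨k, hk, hk'⟩ := hc.2.2 l' (ih l' h1)
      rw [(hU M K hK).2.1 l' l k h2 hk']
      exact hk
  have uniq : ∀ (K b : M), IsHF K → ∀ (n : ℕ) (l l' : M), H41St K n b l → H41St K n b l' →
      l = l' := by
    intro K b hK n
    induction n with
    | zero => rintro l l' rfl h; exact h.symm
    | succ n ih =>
      rintro l l' ⟨m, h1, h2⟩ ⟨m', h1', h2'⟩
      have := ih m m' h1 h1'
      subst this
      exact (hU M K hK).2.1 _ _ _ h2 h2'
  -- the asymmetric statement
  have main : ∀ (i j : ℕ), i < j → Psi i M → Psi j M → False := by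
    rintro i j hij ⟨K, k, hK, hk, hch⟩ ⟨K', k', hK', hk', hch'⟩
    have e : K = K' := Sub.antisymm (fun x hx => hK.2 K' hK'.1 x hx)
      (fun x hx => hK'.2 K hK.1 x hx)
    subst e
    have e := (hU M K hK).1 k k' hk hk'
    subst e
    obtain ⟨b, hb, h1⟩ := (h41_chain _ _).1 hch
    obtain ⟨c, hc, h2⟩ := (h41_chain _ _).1 hch'
    have g1 := grow K b hK hb.1 hb.2.1 _ _ h1
    have g2 := grow K c hK hc.1 hc.2.1 _ _ h2
    rcases hb.1.tri hc.1 with h | h | h
    · exact not_mem_cycle (closed K b c hK hc h _ _ h1) (g2.2.2.2 (Nat.succ_pos _))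
    · subst h
      obtain ⟨d, hd⟩ := Nat.exists_eq_add_of_lt hij
      have h3 : j + 1 = (i + 1) + (d + 1) := by omega
      rw [h3] at h2
      obtain ⟨l', h4, h5⟩ := h41_st_add _ _ _ h2
      have := uniq K b hK _ _ _ h1 h4
      subst this
      have g3 := grow K k hK g1.1 g1.2.1 _ _ h5
      exact not_mem_self k (g3.2.2.2 (Nat.succ_pos _))
    · exact not_mem_cycle (closed K c b hK hb h _ _ h2) (g1.2.2.2 (Nat.succ_pos _))
  intro hi hj
  rcases lt_trichotomy i j with h | h | h
  · exact (main i j h hi hj).elim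
  · exact h
  · exact (main j i h hj hi).elim

end SW
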