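import Pool.Agent.H35.SW.FinDefs

/-! Module HUP: monotonicity, uniqueness and growth. -/

set_option linter.unusedVariables false
set_option synthInstance.maxSize 100000

namespace SW

theorem h41_triple {M : Type} [SetStr M] [ZF M] {x m c R : M} :
    TripleIn x m c R ↔ E (opair (opair x m) c) R := by
  unfold TripleIn
  constructor
  · rintro ⟨y, hy, h⟩
    rw [isOP_iff] at hy
    rw [pairIn_iff] at h
    rw [← hy]; exact h
  · intro h
    exact ⟨opair x m, isOP_iff.2 rfl, pairIn_iff.2 h⟩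

theorem h41_ctb_down {M : Type} [SetStr M] [ZF M] {K l l' : M} (hl : Ord l) (h : E l' l)
    (hc : Ctb K l) : Ctb K l' := by
  obtain ⟨g, h1, h2⟩ := hc
  exact ⟨g, h1, fun c hc => h2 c (hl.trans h hc)⟩

theorem h41_good_down {M : Type} [SetStr M] [ZF M] {K l k k' : M} (hk : Ord k) (h : E k' k)
    (hg : Good K k l) : Good K k' l := by
  obtain ⟨S, h1, h2, h3⟩ := hg
  have hs : ∀ b, E b k' → E b k := fun b hb => hk.trans h hb
  refine ⟨S, fun b m c hb => h1 b m c (hs b hb), fun b m c c' hb => h2 b m c c' (hs b hb), ?_⟩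
  rintro a ha J hJ ⟨g, g1, g2⟩
  -- the larger set
  obtain ⟨J', hJ'⟩ := sep_ex (C := fun b : M => ∀ m c : M, E m K → TripleIn b m c S →
    ∃ m' : M, E m' K ∧ PairIn m' c a) inferInstance k
  have hsub : ∀ b, E b J → E b J' := by
    intro b hb
    have := (hJ b).1 hb
    exact (hJ' b).2 ⟨hs b this.1, this.2⟩
  refine h3 a ha J' hJ' ⟨sep g (fun z => ∃ x m c : M, E x J ∧ z = opair (opair x m) c), ?_, ?_⟩
  · intro x m c c' hx hm hc hc'
    rw [h41_triple, mem_sep' inferInstance] at hc hc'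
    obtain ⟨hc, y, n, d, hy, e⟩ := hc
    rw [opair_inj, opair_inj] at e
    obtain ⟨⟨rfl, rfl⟩, rfl⟩ := e
    exact g1 x m c c' hy hm (h41_triple.2 hc) (h41_triple.2 hc'.1)
  · intro c hc
    obtain ⟨x, m, hx, hm, h4⟩ := g2 c hc
    refine ⟨x, m, hsub x hx, hm, ?_⟩
    rw [h41_triple, mem_sep' inferInstance]
    exact ⟨h41_triple.1 h4, x, m, c, hx, rfl⟩

theorem h41_good_self (hH : HFStmt) {M : Type} [SetStr M] [ZF M] {K l : M} (hK : IsHF K)
    (hc : ¬ Ctb K l) : Good K l l := by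
  have F := hH M K hK
  have hS : ∀ b m c : M, TripleIn b m c (img l (fun c => opair (opair c emp) c)) ↔
      E c l ∧ b = c ∧ m = emp := by
    intro b m c
    rw [h41_triple, mem_img' inferInstance]
    constructor
    · rintro ⟨x, hx, e⟩
      rw [opair_inj, opair_inj] at e
      obtain ⟨⟨rfl, rfl⟩, rfl⟩ := e
      exact ⟨hx, rfl, rfl⟩
    · rintro ⟨h, rfl, rfl⟩
      exact ⟨b, h, rfl⟩
  refine ⟨img l (fun c => opair (opair c emp) c), ?_, ?_, ?_⟩
  · intro b m c _ _ h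
    exact ((hS b m c).1 h).1
  · intro b m c c' _ _ h h'
    rw [← ((hS b m c).1 h).2.1, ← ((hS b m c').1 h').2.1]
  · rintro a ha J hJ ⟨g, g1, g2⟩
    apply hc
    have hJa : ∀ b, E b J → ∃ m', E m' K ∧ PairIn m' b a := by
      intro b hb
      have := (hJ b).1 hb
      exact this.2 emp b F.emp ((hS b emp b).2 ⟨this.1, rfl, rfl⟩)
    refine ⟨sep (prod K l) (fun z => ∃ m' m x c : M, z = opair (opair m' m) c ∧ E x J ∧
      PairIn m' x a ∧ TripleIn x m c g), ?_, ?_⟩
    · intro p c c' hp h h'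
      rw [pairIn_iff, mem_sep' inferInstance] at h h'
      obtain ⟨-, m', m, x, d, e, hx, hax, hg⟩ := h
      obtain ⟨-, n', n, y, d', e', hy, hay, hg'⟩ := h'
      rw [opair_inj] at e e'
      obtain ⟨rfl, rfl⟩ := e
      obtain ⟨e1, rfl⟩ := e'
      rw [opair_inj] at e1
      obtain ⟨rfl, rfl⟩ := e1
      have hmm := F.opair.1 hp
      have hxy := ha m' x y hmm.1 hax hay
      subst hxy
      exact g1 x m c c' hx hmm.2 hg hg'
    · intro c hc
      obtain ⟨x, m, hx, hm, hg⟩ := g2 c hc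
      obtain ⟨m', hm', hax⟩ := hJa x hx
      refine ⟨opair m' m, F.opair.2 ⟨hm', hm⟩, ?_⟩
      rw [pairIn_iff, mem_sep' inferInstance]
      exact ⟨mem_prod.2 ⟨F.opair.2 ⟨hm', hm⟩, hc⟩, m', m, x, c, rfl, hx, hax, hg⟩

theorem hup (hH : HFStmt) : HUPStmt := by
  intro M _ _ K hK
  refine ⟨?_, ?_, ?_, ?_, ?_, ?_, ?_⟩
  · rintro k k' ⟨h1, h2, h3⟩ ⟨h1', h2', h3'⟩
    rcases h1.tri h1' with h | h | h
    · exact absurd (h3' k h) h2
    · exact h
    · exact absurd (h3 k' h) h2'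
  · rintro l k k' ⟨h1, h2, h3⟩ ⟨h1', h2', h3'⟩
    rcases h1.tri h1' with h | h | h
    · exact absurd (h3' k h) h2
    · exact h
    · exact absurd (h3 k' h) h2'
  · rintro l k hl hc ⟨h1, h2, h3⟩
    have hg := h41_good_self hH hK hc
    have hlk : E l k := by
      rcases hl.tri h1 with h | h | h
      · exact h
      · rw [h] at hg; rw [← h] at h2; exact absurd (h ▸ hg) h2
      · exact absurd (h41_good_down hl h hg) h2
    exact ⟨hlk, fun hk => hc (h41_ctb_down h1 hlk hk)⟩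
  · rintro k k' hk h ⟨F, hF⟩
    exact ⟨F, fun a b ha hb => hF a b (hk.trans h ha) (hk.trans h hb)⟩
  · intro l k k' hk h hg
    exact h41_good_down hk h hg
  · intro l l' hl h hc
    exact h41_ctb_down hl h hc
  · rintro l ⟨g, g1, g2⟩
    refine ⟨sep (prod l K) (fun z => ∃ c m : M, z = opair c m ∧ E (opair m c) g), ?_⟩
    intro a b ha hb hab
    obtain ⟨m, hm, hma⟩ := g2 a ha
    refine ⟨m, hm, fun h => hab ?_⟩
    have h1 : PairIn a m (sep (prod l K) (fun z => ∃ c m : M, z = opair c m ∧ E (opair m c) g)) := by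
      rw [pairIn_iff, mem_sep' inferInstance]
      exact ⟨mem_prod.2 ⟨ha, hm⟩, a, m, rfl, pairIn_iff.1 hma⟩
    have h2 := h.1 h1
    rw [pairIn_iff, mem_sep' inferInstance] at h2
    obtain ⟨-, c, n, e, h3⟩ := h2
    rw [opair_inj] at e
    obtain ⟨rfl, rfl⟩ := e
    exact g1 m a b hm hma (pairIn_iff.2 h3)

end SW
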