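import Pool.Agent.H35.SW.FinDefs

/-! Module HF: the hereditarily finite sets. -/

set_option linter.unusedVariables false
set_option synthInstance.maxSize 100000

namespace SW

theorem hf (hF : FINStmt) : HFStmt := by
  intro M _ _ K hK
  have FF := hF M
  obtain ⟨h0, h1⟩ := hfClosed_iff.1 hK.1
  have ind : ∀ C : M → Prop, Cl C → C SW.emp →
      (∀ x y, E x K → E y K → C x → C y → C (SW.ins y x)) → ∀ x, E x K → C x := by
    intro C hC hc0 hc1 x hx
    have h2 : HFClosed (sep K C) := by
      rw [hfClosed_iff]
      refine ⟨by rw [mem_sep' hC]; exact ⟨h0, hc0⟩, fun x y hx hy => ?_⟩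
      rw [mem_sep' hC] at hx hy ⊢
      exact ⟨h1 x y hx.1 hy.1, hc1 x y hx.1 hy.1 hx.2 hy.2⟩
    have h3 := hK.2 _ h2 x hx
    rw [mem_sep' hC] at h3
    exact h3.2
  have tr : Trans K := by
    intro y hy
    refine ind (fun y => Sub y K) inferInstance ?_ ?_ y hy
    · intro z hz; exact absurd hz (not_mem_emp z)
    · intro x y hx hy ihx _ z hz
      rw [mem_ins] at hz
      rcases hz with hz | rfl
      · exact ihx z hz
      · exact hy
  have hsing : ∀ {x : M}, E x K → E (sing x) K := by
    intro x hx
    have : sing x = ins x emp := ext fun z => by simp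
    rw [this]
    exact h1 _ _ h0 hx
  have hup : ∀ {x y : M}, E x K → E y K → E (upair x y) K := by
    intro x y hx hy
    have : upair x y = ins y (sing x) := ext fun z => by simp
    rw [this]
    exact h1 _ _ (hsing hx) hy
  refine ⟨h0, fun hx hy => h1 _ _ hx hy, ind, tr, ?_, ?_, hsing, hup, ?_⟩
  · intro n hn
    refine om_ind (C := fun n => E n K) inferInstance h0 ?_ n hn
    intro n _ h
    exact h1 _ _ h h
  · intro x y
    constructor
    · intro h
      have h2 : E (sing x) K := tr _ h _ (by simp [opair])
      have h3 : E (upair x y) K := tr _ h _ (by simp [opair])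
      exact ⟨tr _ h2 _ (by simp), tr _ h3 _ (by simp)⟩
    · rintro ⟨hx, hy⟩
      exact hup (hsing hx) (hup hx hy)
  · intro x
    constructor
    · intro hx
      refine ⟨?_, tr x hx⟩
      refine ind (fun x => Fnt x) inferInstance FF.emp ?_ x hx
      intro x y _ _ ih _
      exact FF.ins ih
    · rintro ⟨hx, hs⟩
      have := FF.ind (fun x => Sub x K → E x K) inferInstance (fun _ => h0) ?_ x hx
      · exact this hs
      · intro x a _ _ ih hsub
        have h2 : Sub x K := fun z hz => hsub z (by rw [mem_ins]; exact Or.inl hz)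
        exact h1 _ _ (ih h2) (hsub a (by simp))

end SW
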